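import Pool.Agent.Y395.RS.Stm

set_option autoImplicit false

/-!
Project RS (helper395), RS-NAM: near-automorphisms give matches (helper448).
-/

namespace Pool.Agent.Y448.RS

open Finset Pool.Agent.H234RC Pool.Agent.TH953.RC Pool.Agent.Y395.RS

theorem mem_pair {V : Type} [DecidableEq V] (φ : Equiv.Perm V) (a b z : V) :
    φ z ∉ ({φ a, φ b} : Finset V) ↔ z ∉ ({a, b} : Finset V) := by
  simp

theorem not_mem_pair {V : Type} [DecidableEq V] {a b z : V} :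
    z ∉ ({a, b} : Finset V) ↔ z ≠ a ∧ z ≠ b := by
  simp

theorem dg_eq {V : Type} [Fintype V] [DecidableEq V] (F : Finset (Sym2 V)) (φ : NAut V)
    (h : IsNA (gr F) φ) {z : V} (h1 : z ≠ φ.2.1) (h2 : z ≠ φ.2.2) :
    dg F {φ.2.1, φ.2.2} z = dg F {φ.1 φ.2.1, φ.1 φ.2.2} (φ.1 z) := by
  unfold dg
  refine Finset.card_equiv φ.1 fun y => ?_
  rw [mem_nb, mem_nb, mem_sdiff, mem_sdiff, mem_pair]
  constructor
  · rintro ⟨⟨_, h3⟩, h4⟩
    obtain ⟨h5, h6⟩ := not_mem_pair.1 h3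
    exact ⟨⟨mem_univ _, h3⟩, (h z y h1 h2 h5 h6).2 h4⟩
  · rintro ⟨⟨_, h3⟩, h4⟩
    obtain ⟨h5, h6⟩ := not_mem_pair.1 h3
    exact ⟨⟨mem_univ _, h3⟩, (h z y h1 h2 h5 h6).1 h4⟩

theorem main : NAM := by
  classical
  intro V _ _ F φ v h hv1 hv2 j
  unfold cj
  refine Finset.card_equiv φ.1 fun z => ?_
  rw [mem_filter, mem_filter, mem_pair]
  constructor
  · rintro ⟨_, h3, h4, h5⟩
    obtain ⟨h6, h7⟩ := not_mem_pair.1 h3
    exact ⟨mem_univ _, h3, (h v z hv1 hv2 h6 h7).2 h4, by rw [← dg_eq F φ h h6 h7]; exact h5⟩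
  · rintro ⟨_, h3, h4, h5⟩
    obtain ⟨h6, h7⟩ := not_mem_pair.1 h3
    exact ⟨mem_univ _, h3, (h v z hv1 hv2 h6 h7).1 h4, by rw [dg_eq F φ h h6 h7]; exact h5⟩

end Pool.Agent.Y448.RS
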